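import Mathlib
import Pool.Agent.Lib.MP_9e49d7_an.Defs
import Pool.Agent.Lib.MP_9e49d7_an.Measure

set_option autoImplicit false

/-!
# Minimal points need not be dense under (asymptotic) average shadowing (MP_9e49d7_an)

The example is the subshift of all `x : ℕ → {0,1}` such that for every `k`, ends of runs of `k` zeros (zeros being
added to the left of position `0`) occur in every window of length `4^k`. It is closed under replacing ones by
zeros, and any 0-1 sequence can be brought into it by deleting ones near those windows in which the requirement
fails; the deletions for scale `k` have density at most `2^(1-k)` in every initial segment, which gives both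
shadowing properties. Invariant measures charging any given cylinder come from a Krylov-Bogoliubov argument, and
the only minimal point is the zero sequence.
-/

open MeasureTheory
open Pool.Agent.Lib.MP_9e49d7_an

namespace Pool.Agent.Results.MP_9e49d7_an.ProximalExample

/-- There is a surjective compact system with the asymptotic average shadowing property, the average shadowing
property and a fully supported invariant measure, which has exactly one minimal point; in particular its minimal
points are not dense. -/
theorem result : ∃ (X : Type) (_ : MetricSpace X) (_ : CompactSpace X) (_ : MeasurableSpace X)
    (_ : BorelSpace X) (f : X → X),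
    Continuous f ∧ Function.Surjective f ∧ AASP f ∧ ASP f ∧
    (∃ μ : Measure X, IsProbabilityMeasure μ ∧ MeasurePreserving f μ μ ∧
      ∀ U : Set X, IsOpen U → U.Nonempty → 0 < μ U) ∧
    (∃ p : X, ∀ x : X, IsMinimalPoint f x ↔ x = p) ∧
    ¬ Dense {x : X | IsMinimalPoint f x} := by
  letI : MeasurableSpace Xs := borel Xs
  haveI : BorelSpace Xs := ⟨rfl⟩
  exact ⟨Xs, inferInstance, inferInstance, inferInstance, inferInstance, sh, continuous_sh, sh_surjective,
    master_sh.aasp, master_sh.asp, exists_full_support, ⟨zeroPt, minimal_iff⟩, not_dense_minimal⟩

end Pool.Agent.Results.MP_9e49d7_an.ProximalExample
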